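import Mathlib

namespace Pool.Agent.Results.MP_c76eb3_co.Q1

/-- Row lengths `s.count 0, s.count 1, …` form a strict partition. -/
def Strict (s : Multiset ℕ) : Prop := ∀ i, s.count (i + 1) = 0 ∨ s.count (i + 1) < s.count i

/-- A shifted standard Young tableau, recorded by the rows of its entries `n, n-1, …, 1`
(head of the list = row of the largest entry): every initial piece has a strict shape. -/
inductive IsTab : List ℕ → Prop
  | nil : IsTab []
  | cons {w : List ℕ} {i : ℕ} : IsTab w → Strict ((i :: w : List ℕ) : Multiset ℕ) → IsTab (i :: w)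

def Node : Type := {w : List ℕ // IsTab w}

/-- `y` is a child of `x`: deleting the largest entry of `y` gives `x`. -/
def Child (x y : Node) : Prop := ∃ i, y.1 = i :: x.1

open Multiset

def Allowed (s : Multiset ℕ) (i : ℕ) : Prop := i = 0 ∨ s.count i + 2 ≤ s.count (i - 1)

instance (s : Multiset ℕ) : DecidablePred (Allowed s) := fun i => by
  unfold Allowed; infer_instance

lemma allowed_iff {s : Multiset ℕ} (hs : Strict s) (i : ℕ) : Strict (i ::ₘ s) ↔ Allowed s i := by
  constructor
  · intro h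
    rcases i with _ | j
    · exact Or.inl rfl
    · have := h j
      rw [count_cons_self, count_cons_of_ne (by omega)] at this
      right
      simp only [Nat.add_sub_cancel]
      omega
  · intro h j
    have := hs j
    by_cases h1 : j + 1 = i
    · subst h1
      rw [count_cons_self, count_cons_of_ne (by omega)]
      rcases h with h | h
      · omega
      · simp only [Nat.add_sub_cancel] at h; omega
    · rw [count_cons_of_ne h1]
      have := count_le_count_cons j i s
      omega

lemma bound {s : Multiset ℕ} (hs : Strict s) (i : ℕ) : s.count i ≤ s.count 0 - i := by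
  induction i with
  | zero => omega
  | succ i ih => have := hs i; omega

lemma pos_before {s : Multiset ℕ} (hs : Strict s) (r j : ℕ) (hr : r ≤ j) (hj : 0 < s.count j) :
    0 < s.count r := by
  induction j with
  | zero => obtain rfl : r = 0 := by omega
            exact hj
  | succ j ih =>
    rcases Nat.eq_or_lt_of_le hr with h | h
    · rw [h]; exact hj
    · have := hs j; exact ih (by omega) (by omega)

lemma card_bound {s : Multiset ℕ} (hs : Strict s) : card s ≤ s.count 0 * s.count 0 := by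
  have : s ≤ s.count 0 • Multiset.range (s.count 0) := by
    rw [le_iff_count]
    intro a
    have := bound hs a
    rw [count_nsmul]
    by_cases h : a < s.count 0
    · rw [count_eq_one_of_mem (nodup_range _) (mem_range.2 h)]; omega
    · omega
  simpa using card_le_card this

lemma stair {s : Multiset ℕ} (hs : Strict s) (h : ∀ i, Allowed s i → i = 0) (i : ℕ) :
    s.count i = s.count 0 - i := by
  induction i with
  | zero => omega
  | succ i ih =>
    have h1 := bound hs (i + 1)
    have h2 : ¬ Allowed s (i + 1) := fun h' => by have := h _ h'; omega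
    simp only [Allowed, Nat.add_sub_cancel] at h2
    omega

lemma stair_eq {s t : Multiset ℕ} (hs : Strict s) (ht : Strict t) (h1 : ∀ i, Allowed s i → i = 0)
    (h2 : ∀ i, Allowed t i → i = 0) (hc : card s = card t) : s = t := by
  rcases le_total (s.count 0) (t.count 0) with h | h
  · exact eq_of_le_of_card_le (le_iff_count.2 fun a => by
      rw [stair hs h1 a, stair ht h2 a]; omega) hc.ge
  · exact (eq_of_le_of_card_le (le_iff_count.2 fun a => by
      rw [stair hs h1 a, stair ht h2 a]; omega) hc.le).symm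

def mov (s : Multiset ℕ) : Finset ℕ := (Finset.range (s.sum + 2)).filter (Allowed s)

lemma mem_mov {s : Multiset ℕ} {i : ℕ} : i ∈ mov s ↔ Allowed s i := by
  simp only [mov, Finset.mem_filter, Finset.mem_range, and_iff_right_iff_imp]
  rintro (h | h)
  · omega
  · have : i - 1 ∈ s := count_pos.1 (by omega)
    have := Multiset.le_sum_of_mem this
    omega

def N : ℕ → Multiset ℕ → ℕ
  | 0, _ => 1
  | d + 1, s => ∑ i ∈ mov s, N d (i ::ₘ s)

def Ex (i : ℕ) (s t : Multiset ℕ) : Prop :=
  1 ≤ i ∧ Strict s ∧ Strict t ∧ (∀ r, r < i → s.count r = t.count r) ∧ s.count i = 2 ∧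
    s.count (i + 1) = 1 ∧ t.count i = 3 ∧ t.count (i + 1) = 0

def U (i : ℕ) (s : Multiset ℕ) : Finset ℕ := (Finset.range i).filter (Allowed s)

lemma mem_U {i r : ℕ} {s : Multiset ℕ} : r ∈ U i s ↔ r < i ∧ Allowed s r := by simp [U]

lemma ex_zero {i : ℕ} {s t : Multiset ℕ} (h : Ex i s t) (r : ℕ) (hr : i + 2 ≤ r) :
    s.count r = 0 ∧ t.count r = 0 := by
  obtain ⟨-, hs, ht, -, a1, a2, a3, a4⟩ := h
  have b1 := hs (i + 1)
  constructor
  · by_contra hc
    have := pos_before hs (i + 1 + 1) r hr (by omega); omega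
  · by_contra hc
    have := pos_before ht (i + 1) r (by omega) (by omega); omega

lemma ex_cons {i : ℕ} {s t : Multiset ℕ} (h : Ex i s t) : i ::ₘ s = (i + 1) ::ₘ t := by
  ext r
  have hz := ex_zero h r
  obtain ⟨-, hs, ht, a0, a1, a2, a3, a4⟩ := h
  have := a0 r
  simp only [count_cons]
  split_ifs with h1 h2 h2
  · omega
  · subst h1; omega
  · subst h2; omega
  · omega

lemma ex_al {i r : ℕ} {s t : Multiset ℕ} (h : Ex i s t) (hr : r ∈ U i s) :
    Allowed t r ∧ Ex i (r ::ₘ s) (r ::ₘ t) := by
  obtain ⟨h1, hs, ht, a0, a1, a2, a3, a4⟩ := h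
  obtain ⟨hlt, ha⟩ := mem_U.1 hr
  have hb : Allowed t r := by
    rcases ha with ha | ha
    · exact Or.inl ha
    · right; rw [← a0 r hlt, ← a0 (r - 1) (by omega)]; exact ha
  refine ⟨hb, h1, (allowed_iff hs r).2 ha, (allowed_iff ht r).2 hb, ?_, ?_, ?_, ?_, ?_⟩
  · intro q hq; simp only [count_cons, a0 q hq]
  all_goals (simp only [count_cons]; split_ifs <;> omega)

lemma ex_mov {i : ℕ} {s t : Multiset ℕ} (h : Ex i s t) :
    mov s ⊆ insert i (U i s) ∧ insert (i + 1) (U i s) ⊆ mov t := by
  constructor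
  · intro r hr
    rw [Finset.mem_insert, mem_U]
    have ha := mem_mov.1 hr
    have hz := ex_zero h (r - 1)
    obtain ⟨h1, hs, ht, a0, a1, a2, a3, a4⟩ := h
    by_cases h2 : r < i
    · exact Or.inr ⟨h2, ha⟩
    · left
      rcases ha with ha | ha
      · omega
      · by_contra h3
        by_cases h4 : r = i + 1
        · subst h4; simp only [Nat.add_sub_cancel] at ha; omega
        · by_cases h5 : r - 1 = i + 1
          · rw [h5] at ha; omega
          · omega
  · intro r hr
    rcases Finset.mem_insert.1 hr with rfl | hr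
    · obtain ⟨h1, hs, ht, a0, a1, a2, a3, a4⟩ := h
      exact mem_mov.2 (Or.inr (by simp only [Nat.add_sub_cancel]; omega))
    · exact mem_mov.2 (ex_al h hr).1

lemma ex_split {i : ℕ} {s t : Multiset ℕ} (h : Ex i s t) (d : ℕ) :
    N (d + 1) s ≤ N d (i ::ₘ s) + ∑ r ∈ U i s, N d (r ::ₘ s) ∧
    N d (i ::ₘ s) + ∑ r ∈ U i s, N d (r ::ₘ t) ≤ N (d + 1) t := by
  constructor
  · rw [← Finset.sum_insert (f := fun r => N d (r ::ₘ s)) (by simp [mem_U])]
    exact Finset.sum_le_sum_of_subset (ex_mov h).1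
  · rw [ex_cons h, ← Finset.sum_insert (f := fun r => N d (r ::ₘ t)) (by simp [mem_U])]
    exact Finset.sum_le_sum_of_subset (ex_mov h).2

lemma ex_le {i : ℕ} (d : ℕ) : ∀ s t : Multiset ℕ, Ex i s t → N d s ≤ N d t := by
  induction d with
  | zero => intro s t _; simp [N]
  | succ d ih =>
    intro s t h
    have h1 := ex_split h d
    have : ∑ r ∈ U i s, N d (r ::ₘ s) ≤ ∑ r ∈ U i s, N d (r ::ₘ t) :=
      Finset.sum_le_sum fun r hr => ih _ _ (ex_al h hr).2
    omega

lemma ex_lt {i : ℕ} (m : ℕ) : ∀ (r : ℕ) (s t : Multiset ℕ), Ex i s t → r + m + 1 = i →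
    Allowed s r → ∃ d, N d s < N d t := by
  have step : ∀ (r d : ℕ) (s t : Multiset ℕ), Ex i s t → r ∈ U i s →
      N d (r ::ₘ s) < N d (r ::ₘ t) → N (d + 1) s < N (d + 1) t := by
    intro r d s t h hr hlt
    have h1 := ex_split h d
    have : ∑ r ∈ U i s, N d (r ::ₘ s) < ∑ r ∈ U i s, N d (r ::ₘ t) :=
      Finset.sum_lt_sum (fun r hr => ex_le d _ _ (ex_al h hr).2) ⟨r, hr, hlt⟩
    omega
  induction m with
  | zero =>
    intro r s t h hr ha
    have hU : r ∈ U i s := mem_U.2 ⟨by omega, ha⟩
    refine ⟨2, step r 1 s t h hU ?_⟩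
    have h' := (ex_al h hU).2
    have h1 := (ex_split h' 0).1
    have hi : Allowed (r ::ₘ t) i := by
      obtain ⟨h1, hs, ht, a0, a1, a2, a3, a4⟩ := h
      have := ht r
      obtain rfl : i = r + 1 := by omega
      right
      simp only [count_cons, Nat.add_sub_cancel]
      split_ifs <;> omega
    have h2 : insert i (insert (i + 1) (U i (r ::ₘ s))) ⊆ mov (r ::ₘ t) :=
      Finset.insert_subset (mem_mov.2 hi) (ex_mov h').2
    have h3 := Finset.card_le_card h2
    rw [Finset.card_insert_of_notMem (by simp [mem_U]),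
      Finset.card_insert_of_notMem (by simp [mem_U])] at h3
    simp only [N, Finset.sum_const, smul_eq_mul, mul_one] at h1 ⊢
    omega
  | succ m ih =>
    intro r s t h hr ha
    have hU : r ∈ U i s := mem_U.2 ⟨by omega, ha⟩
    have h' := (ex_al h hU).2
    have hi : Allowed (r ::ₘ s) (r + 1) := by
      obtain ⟨h1, hs, ht, a0, a1, a2, a3, a4⟩ := h
      have := hs r
      have := pos_before hs (r + 1) i (by omega) (by omega)
      right
      simp only [count_cons, Nat.add_sub_cancel]
      split_ifs <;> omega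
    obtain ⟨d, hd⟩ := ih (r + 1) _ _ h' (by omega) hi
    exact ⟨d + 1, step r d s t h hU hd⟩

lemma ex_of {s t : Multiset ℕ} {i j : ℕ} (hs : Strict s) (ht : Strict t) (hi : i ≠ 0) (hij : i < j)
    (he : i ::ₘ s = j ::ₘ t) (h1 : ∀ r, Allowed s r → r ≠ 0 → r = i)
    (h2 : ∀ r, Allowed t r → r ≠ 0 → r = j) : Ex i s t := by
  have hc : ∀ r, s.count r + (if r = i then 1 else 0) = t.count r + (if r = j then 1 else 0) := by
    intro r; rw [← count_cons, ← count_cons, he]
  have n1 : ∀ r, r + 1 ≠ i → s.count r < s.count (r + 1) + 2 := by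
    intro r hr; by_contra hh
    exact hr (h1 (r + 1) (Or.inr (by simp only [Nat.add_sub_cancel]; omega)) (by omega))
  have n2 : ∀ r, r + 1 ≠ j → t.count r < t.count (r + 1) + 2 := by
    intro r hr; by_contra hh
    exact hr (h2 (r + 1) (Or.inr (by simp only [Nat.add_sub_cancel]; omega)) (by omega))
  have c1 := hc i
  have c2 := hc j
  rw [if_pos rfl, if_neg (by omega)] at c1
  rw [if_pos rfl, if_neg (by omega)] at c2
  have hj : j = i + 1 := by
    by_contra hh
    have c3 := hc (i + 1)
    rw [if_neg (by omega), if_neg (by omega)] at c3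
    have := n2 i (by omega)
    have := hs i
    have := pos_before hs (i + 1) j (by omega) (by omega)
    omega
  subst hj
  have c3 := hc (i + 1 + 1)
  rw [if_neg (by omega), if_neg (by omega)] at c3
  have := n1 (i + 1) (by omega)
  have := n1 i (by omega)
  have := hs i
  have := ht (i + 1)
  refine ⟨by omega, hs, ht, ?_, by omega, by omega, by omega, by omega⟩
  intro r hr
  have := hc r
  rw [if_neg (by omega), if_neg (by omega)] at this
  omega

section
variable (R : Multiset ℕ → Multiset ℕ → Prop) (hsy : ∀ s t, R s t → R t s)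
  (hst : ∀ s t, R s t → Strict s ∧ card s = card t)
  (hstep : ∀ s t, R s t → ∃ e : ℕ → ℕ, (∀ i, Allowed s i → Allowed t (e i) ∧ R (i ::ₘ s) (e i ::ₘ t)) ∧
    (∀ i j, Allowed s i → Allowed s j → e i = e j → i = j) ∧
    (∀ j, Allowed t j → ∃ i, Allowed s i ∧ e i = j))
include hsy hst hstep

lemma stair_case (s t : Multiset ℕ) (h : R s t) (h1 : ∀ i, Allowed s i → i = 0) : s = t := by
  obtain ⟨e, e1, e2, e3⟩ := hstep s t h
  refine stair_eq (hst s t h).1 (hst t s (hsy s t h)).1 h1 ?_ (hst s t h).2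
  intro j hj
  obtain ⟨i, hi, rfl⟩ := e3 j hj
  obtain ⟨i0, hi0, h0⟩ := e3 0 (Or.inl rfl)
  rw [h1 i0 hi0] at h0
  rw [h1 i hi]; exact h0

lemma top_le (n : ℕ) : ∀ s t, R s t → s.count 0 * s.count 0 - card s = n →
    t.count 0 ≤ s.count 0 := by
  induction n using Nat.strong_induction_on with
  | _ n ih =>
    intro s t h hn
    by_cases h1 : ∀ i, Allowed s i → i = 0
    · rw [stair_case R hsy hst hstep s t h h1]
    · push Not at h1
      obtain ⟨i, hi, hi0⟩ := h1
      obtain ⟨e, e1, e2, e3⟩ := hstep s t h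
      have hr := (e1 i hi).2
      have hb := card_bound (hst _ _ hr).1
      have hc : count 0 (i ::ₘ s) = count 0 s := count_cons_of_ne (Ne.symm hi0) s
      have := ih _ (by rw [hc, card_cons] at hb ⊢; omega) _ _ hr rfl
      rw [hc, count_cons] at this
      omega

lemma top_eq (s t : Multiset ℕ) (h : R s t) : s.count 0 = t.count 0 :=
  le_antisymm (top_le R hsy hst hstep _ t s (hsy s t h) rfl) (top_le R hsy hst hstep _ s t h rfl)

omit hsy hst in
lemma N_eq (d : ℕ) : ∀ s t, R s t → N d s = N d t := by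
  induction d with
  | zero => intro s t _; rfl
  | succ d ih =>
    intro s t h
    obtain ⟨e, e1, e2, e3⟩ := hstep s t h
    refine Finset.sum_bij (fun i _ => e i) (fun i hi => mem_mov.2 (e1 i (mem_mov.1 hi)).1)
      (fun i hi j hj => e2 i j (mem_mov.1 hi) (mem_mov.1 hj)) ?_
      (fun i hi => ih _ _ (e1 i (mem_mov.1 hi)).2)
    intro j hj
    obtain ⟨i, hi, hij⟩ := e3 j (mem_mov.1 hj)
    exact ⟨i, mem_mov.2 hi, hij⟩

lemma main (n : ℕ) : ∀ s t, R s t → s.count 0 * s.count 0 - card s = n → s = t := by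
  induction n using Nat.strong_induction_on with
  | _ n ih =>
    intro s t h hn
    by_cases h1 : ∀ i, Allowed s i → i = 0
    · exact stair_case R hsy hst hstep s t h h1
    · push Not at h1
      obtain ⟨i, hi, hi0⟩ := h1
      obtain ⟨e, e1, e2, e3⟩ := hstep s t h
      have h0 := top_eq R hsy hst hstep s t h
      have key : ∀ r, Allowed s r → r ≠ 0 → r ::ₘ s = e r ::ₘ t := by
        intro r hr hr0
        have hR := (e1 r hr).2
        have hb := card_bound (hst _ _ hR).1
        have hc : count 0 (r ::ₘ s) = count 0 s := count_cons_of_ne (Ne.symm hr0) s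
        exact ih _ (by rw [hc, card_cons] at hb ⊢; omega) _ _ hR rfl
      have he0 : ∀ r, Allowed s r → (r = 0 ↔ e r = 0) := by
        intro r hr
        have := top_eq R hsy hst hstep _ _ (e1 r hr).2
        simp only [count_cons] at this
        split_ifs at this <;> omega
      by_cases hie : e i = i
      · have := key i hi hi0
        rw [hie] at this
        exact (cons_inj_right i).1 this
      · exfalso
        have u1 : ∀ r, Allowed s r → r ≠ 0 → r = i := by
          intro r hr hr0
          have a1 := congrArg (count i) (key i hi hi0)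
          have a2 := congrArg (count i) (key r hr hr0)
          simp only [count_cons] at a1 a2
          split_ifs at a1 a2 <;> omega
        have u2 : ∀ r, Allowed t r → r ≠ 0 → r = e i := by
          intro r hr hr0
          obtain ⟨q, hq, rfl⟩ := e3 r hr
          rw [u1 q hq (fun hh => hr0 ((he0 q hq).1 hh))]
        have hs := (hst s t h).1
        have ht := (hst t s (hsy s t h)).1
        have hei : e i ≠ 0 := fun hh => hi0 ((he0 i hi).2 hh)
        rcases lt_or_gt_of_ne hie with hlt | hlt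
        · obtain ⟨d, hd⟩ := ex_lt (e i - 1) 0 t s
            (ex_of ht hs hei hlt (key i hi hi0).symm u2 u1) (by omega) (Or.inl rfl)
          have := N_eq R hstep d s t h; omega
        · obtain ⟨d, hd⟩ := ex_lt (i - 1) 0 s t
            (ex_of hs ht hi0 hlt (key i hi hi0) u1 u2) (by omega) (Or.inl rfl)
          have := N_eq R hstep d s t h; omega
end

lemma tab_strict {w : List ℕ} (h : IsTab w) : Strict (w : Multiset ℕ) := by
  cases h with
  | nil => intro i; simp
  | cons _ h => exact h

def Aut (φ : Node ≃ Node) : Prop := ∀ x y, Child x y ↔ Child (φ x) (φ y)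

lemma aut_symm {φ : Node ≃ Node} (h : Aut φ) : Aut φ.symm := fun x y => by
  rw [h (φ.symm x) (φ.symm y)]; simp

lemma root_fix {φ : Node ≃ Node} (h : Aut φ) : φ ⟨[], IsTab.nil⟩ = ⟨[], IsTab.nil⟩ := by
  obtain ⟨w, hw, e⟩ : ∃ w hw, φ ⟨[], IsTab.nil⟩ = ⟨w, hw⟩ := ⟨_, _, rfl⟩
  cases hw with
  | nil => exact e
  | @cons w i h1 h2 =>
    have : Child (φ (φ.symm ⟨w, h1⟩)) (φ ⟨[], IsTab.nil⟩) := by
      rw [e, Equiv.apply_symm_apply]; exact ⟨i, rfl⟩
    obtain ⟨j, hj⟩ := (h _ _).2 this
    simp at hj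

lemma len_eq {φ : Node ≃ Node} (h : Aut φ) (w : List ℕ) (hw : IsTab w) :
    (φ ⟨w, hw⟩).1.length = w.length := by
  induction hw with
  | nil => rw [root_fix h]
  | @cons w i h1 h2 ih =>
    obtain ⟨j, hj⟩ := (h ⟨w, h1⟩ ⟨i :: w, IsTab.cons h1 h2⟩).1 ⟨i, rfl⟩
    rw [hj, List.length_cons, ih, List.length_cons]

def R (s t : Multiset ℕ) : Prop :=
  ∃ φ : Node ≃ Node, Aut φ ∧ ∃ x : Node, (x.1 : Multiset ℕ) = s ∧ ((φ x).1 : Multiset ℕ) = t

def ext (x : Node) (i : ℕ) (h : Allowed (x.1 : Multiset ℕ) i) : Node :=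
  ⟨i :: x.1, IsTab.cons x.2 ((allowed_iff (tab_strict x.2) i).2 h)⟩

lemma al_of (x y : Node) (i : ℕ) (h : y.1 = i :: x.1) : Allowed (x.1 : Multiset ℕ) i := by
  have := tab_strict y.2
  rw [h] at this
  exact (allowed_iff (tab_strict x.2) i).1 this

lemma R_eq (s t : Multiset ℕ) (h : R s t) : s = t := by
  refine main R ?_ ?_ ?_ _ s t h rfl
  · rintro s t ⟨φ, hφ, x, rfl, rfl⟩
    exact ⟨φ.symm, aut_symm hφ, φ x, rfl, by simp⟩
  · rintro s t ⟨φ, hφ, x, rfl, rfl⟩
    exact ⟨tab_strict x.2, by simpa using (len_eq hφ x.1 x.2).symm⟩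
  · rintro s t ⟨φ, hφ, x, rfl, rfl⟩
    have : ∀ i, ∃ j, ∀ hi : Allowed (x.1 : Multiset ℕ) i, (φ (ext x i hi)).1 = j :: (φ x).1 := by
      intro i
      by_cases hi : Allowed (x.1 : Multiset ℕ) i
      · obtain ⟨j, hj⟩ := (hφ x (ext x i hi)).1 ⟨i, rfl⟩
        exact ⟨j, fun _ => hj⟩
      · exact ⟨0, fun h => absurd h hi⟩
    choose e he using this
    refine ⟨e, fun i hi => ⟨al_of _ _ _ (he i hi), φ, hφ, ext x i hi, rfl, by rw [he i hi]; rfl⟩,
      ?_, ?_⟩
    · intro i j hi hj hij
      have : φ (ext x i hi) = φ (ext x j hj) := Subtype.ext (by rw [he i hi, he j hj, hij])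
      have := congrArg Subtype.val (φ.injective this)
      simpa [ext] using this
    · intro j hj
      have : Child (φ x) (φ (φ.symm (ext (φ x) j hj))) := by
        rw [Equiv.apply_symm_apply]; exact ⟨j, rfl⟩
      obtain ⟨i, hi⟩ := (hφ _ _).2 this
      have ha := al_of _ _ _ hi
      refine ⟨i, ha, ?_⟩
      have h1 : ext x i ha = φ.symm (ext (φ x) j hj) := Subtype.ext hi.symm
      have h2 := he i ha
      rw [h1, Equiv.apply_symm_apply] at h2
      simpa [ext] using h2.symm

theorem result (φ : Node ≃ Node) (h : ∀ x y, Child x y ↔ Child (φ x) (φ y)) :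
    ∀ x, φ x = x := by
  rintro ⟨w, hw⟩
  induction hw with
  | nil => exact root_fix h
  | @cons w i h1 h2 ih =>
    obtain ⟨j, hj⟩ := (h ⟨w, h1⟩ ⟨i :: w, IsTab.cons h1 h2⟩).1 ⟨i, rfl⟩
    rw [ih] at hj
    have := R_eq _ _ ⟨φ, h, ⟨i :: w, IsTab.cons h1 h2⟩, rfl, rfl⟩
    rw [hj] at this
    have hij : i = j := (Multiset.cons_inj_left (w : Multiset ℕ)).1 this
    subst hij
    exact Subtype.ext hj

end Pool.Agent.Results.MP_c76eb3_co.Q1
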